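import Pool.Agent.helper85.AQ.SpecL

/-! Project AQ, row LMV: a moved block gives a repeated eigenvalue. -/

set_option autoImplicit false

namespace Pool.Agent.AQ

open Pool.Agent.GJ
open scoped TensorProduct

noncomputable section

theorem LMV_im_mul {Ω V : Type} [Field Ω] [AddCommGroup V] [Module Ω V] (g h : V ≃ₗ[Ω] V) (W : Submodule Ω V) :
    im (g * h) W = im g (im h W) := by
  unfold im
  rw [← Submodule.map_comp]
  rfl

theorem LMV_im_one {Ω V : Type} [Field Ω] [AddCommGroup V] [Module Ω V] (W : Submodule Ω V) :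
    im (1 : V ≃ₗ[Ω] V) W = W := by
  unfold im
  exact Submodule.map_id W

theorem LMV_im_inj {Ω V : Type} [Field Ω] [AddCommGroup V] [Module Ω V] (g : V ≃ₗ[Ω] V) (W W' : Submodule Ω V)
    (h : im g W = im g W') : W = W' := by
  have h1 : im g⁻¹ (im g W) = im g⁻¹ (im g W') := by rw [h]
  rwa [← LMV_im_mul, ← LMV_im_mul, inv_mul_cancel, LMV_im_one, LMV_im_one] at h1

/-- The permutation of the blocks. -/
def LMV_perm {Ω V : Type} [Field Ω] [AddCommGroup V] [Module Ω V] (S : Finset (Submodule Ω V)) (g : V ≃ₗ[Ω] V)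
    (hS : ∀ W ∈ S, im g W ∈ S) : Equiv.Perm {W // W ∈ S} :=
  Equiv.ofBijective (fun W => ⟨im g W.1, hS W.1 W.2⟩) (Finite.injective_iff_bijective.1 (by
    intro W W' h
    have h1 : im g W.1 = im g W'.1 := congrArg Subtype.val h
    exact Subtype.ext (LMV_im_inj g _ _ h1)))

theorem LMV_perm_apply {Ω V : Type} [Field Ω] [AddCommGroup V] [Module Ω V] (S : Finset (Submodule Ω V)) (g : V ≃ₗ[Ω] V)
    (hS : ∀ W ∈ S, im g W ∈ S) (W : {W // W ∈ S}) : ((LMV_perm S g hS) W).1 = im g W.1 := rfl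

theorem LMV_perm_pow {Ω V : Type} [Field Ω] [AddCommGroup V] [Module Ω V] (S : Finset (Submodule Ω V)) (g : V ≃ₗ[Ω] V)
    (hS : ∀ W ∈ S, im g W ∈ S) (W : {W // W ∈ S}) (k : ℕ) :
    ((LMV_perm S g hS ^ k) W).1 = im (g ^ k) W.1 := by
  induction k with
  | zero =>
    rw [pow_zero, pow_zero, LMV_im_one]
    rfl
  | succ k ih =>
    rw [pow_succ', pow_succ', LMV_im_mul, ← ih, ← LMV_perm_apply S g hS]
    rfl

theorem LMV_order {Ω V : Type} [Field Ω] [AddCommGroup V] [Module Ω V] (S : Finset (Submodule Ω V)) (g : V ≃ₗ[Ω] V)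
    (hS : ∀ W ∈ S, im g W ∈ S) : orderOf (LMV_perm S g hS) ∣ (S.card).factorial := by
  classical
  have h1 : orderOf (LMV_perm S g hS) ∣ Fintype.card (Equiv.Perm {W // W ∈ S}) := orderOf_dvd_card
  rwa [Fintype.card_perm, Fintype.card_coe] at h1

theorem LMV : LMV_stmt := by
  intro Ω V _ _ _ _ _ S hB g hS W0 hW0 hne M hM
  have hσ : (LMV_perm S g hS) ^ M = 1 :=
    orderOf_dvd_iff_pow_eq_one.1 (dvd_trans (LMV_order S g hS) hM)
  have hfix : im (g ^ M) W0 = W0 := by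
    rw [← LMV_perm_pow S g hS ⟨W0, hW0⟩ M, hσ]
    rfl
  have hst : ∀ x ∈ W0, ((g ^ M : V ≃ₗ[Ω] V) : V →ₗ[Ω] V) x ∈ W0 := by
    intro x hx
    have h1 : ((g ^ M : V ≃ₗ[Ω] V) : V →ₗ[Ω] V) x ∈ im (g ^ M) W0 := Submodule.mem_map_of_mem hx
    rwa [hfix] at h1
  haveI : Nontrivial W0 := (Submodule.nontrivial_iff_ne_bot).2 (hB.ne W0 hW0)
  obtain ⟨c, hc⟩ := Module.End.exists_eigenvalue (((g ^ M : V ≃ₗ[Ω] V) : V →ₗ[Ω] V).restrict hst : Module.End Ω W0)
  obtain ⟨u, hu⟩ := hc.exists_hasEigenvector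
  have hu1 : ((g ^ M : V ≃ₗ[Ω] V) : V →ₗ[Ω] V) (u : V) = c • (u : V) := by
    have h1 := hu.apply_eq_smul
    have h2 := congrArg Subtype.val h1
    exact h2
  have hu0 : (u : V) ≠ 0 := fun h => hu.2 (Subtype.ext h)
  have hdis : Disjoint W0 (im g W0) := hB.dis W0 hW0 (im g W0) (hS W0 hW0) (fun h => hne h.symm)
  refine ⟨c, (u : V), g (u : V), u.2, Submodule.mem_map_of_mem u.2, ?_, hu1, ?_⟩
  · rw [LinearIndependent.pair_iff]
    intro s t hst0
    have h1 : s • (u : V) ∈ W0 := W0.smul_mem s u.2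
    have h2 : s • (u : V) ∈ im g W0 := by
      have h3 : s • (u : V) = -(t • g (u : V)) := eq_neg_of_add_eq_zero_left hst0
      rw [h3]
      exact (im g W0).neg_mem ((im g W0).smul_mem t (Submodule.mem_map_of_mem u.2))
    have h4 : s • (u : V) = 0 := Submodule.disjoint_def.1 hdis _ h1 h2
    have h5 : s = 0 := (smul_eq_zero.1 h4).resolve_right hu0
    have h6 : t • g (u : V) = 0 := by
      rw [h4, zero_add] at hst0
      exact hst0
    have h7 : g (u : V) ≠ 0 := fun h => hu0 (g.map_eq_zero_iff.1 h)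
    exact ⟨h5, (smul_eq_zero.1 h6).resolve_right h7⟩
  · have h1 : (g ^ M) (g (u : V)) = g ((g ^ M) (u : V)) := by
      have h2 : (g ^ M * g : V ≃ₗ[Ω] V) = g * g ^ M := by rw [← pow_succ, ← pow_succ']
      exact congrArg (fun f : V ≃ₗ[Ω] V => f (u : V)) h2
    rw [h1]
    have h3 : (g ^ M) (u : V) = c • (u : V) := hu1
    rw [h3, map_smul]

end

end Pool.Agent.AQ
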