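import Pool.Agent.helper93.AQ.LMV

/-! Project AQ, row LNM: no block is moved. -/

set_option autoImplicit false

namespace Pool.Agent.AQ

open Pool.Agent.GJ
open scoped TensorProduct

noncomputable section

theorem LNM_pow_fix {Ω V : Type} [Field Ω] [AddCommGroup V] [Module Ω V] (g : V ≃ₗ[Ω] V) (W : Submodule Ω V)
    (h : im g W = W) (k : ℕ) : im (g ^ k) W = W := by
  induction k with
  | zero => rw [pow_zero, LMV_im_one]
  | succ k ih => rw [pow_succ, LMV_im_mul, h, ih]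

/-- A linear map whose power of prime exponent is a scalar fixes all blocks. -/
theorem LNM_T {Ω V : Type} [Field Ω] [AddCommGroup V] [Module Ω V] (m : ℕ) (hm : m.Prime) (U : Submodule Ω V)
    (T : V ≃ₗ[Ω] V) (hT : ∃ c : Ω, ∀ x ∈ U, (T ^ m) x = c • x) (S : Finset (Submodule Ω V)) (hB : Blk S)
    (hcard : S.card < m) (hU : ∀ W ∈ S, W ≤ U) (hS : ∀ W ∈ S, im T W ∈ S) : ∀ W ∈ S, im T W = W := by
  classical
  obtain ⟨c, hc⟩ := hT
  have h1 : (LMV_perm S T hS) ^ m = 1 := by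
    refine Equiv.ext fun W => Subtype.ext ?_
    rw [LMV_perm_pow]
    show im (T ^ m) W.1 = W.1
    obtain ⟨w, hw, hw0⟩ := Submodule.exists_mem_ne_zero_of_ne_bot (hB.ne W.1 W.2)
    have hc0 : c ≠ 0 := by
      intro h0
      have h2 := hc w (hU W.1 W.2 hw)
      rw [h0, zero_smul] at h2
      exact hw0 ((T ^ m).map_eq_zero_iff.1 h2)
    refine le_antisymm ?_ ?_
    · rintro y ⟨x, hx, rfl⟩
      have h2 : ((T ^ m : V ≃ₗ[Ω] V) : V →ₗ[Ω] V) x = c • x := hc x (hU W.1 W.2 hx)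
      rw [h2]
      exact W.1.smul_mem c hx
    · intro x hx
      have hx' : c⁻¹ • x ∈ W.1 := W.1.smul_mem _ hx
      refine ⟨c⁻¹ • x, hx', ?_⟩
      have h2 : ((T ^ m : V ≃ₗ[Ω] V) : V →ₗ[Ω] V) (c⁻¹ • x) = c • (c⁻¹ • x) := hc _ (hU W.1 W.2 hx')
      rw [h2, smul_inv_smul₀ hc0]
  have h3 : orderOf (LMV_perm S T hS) ∣ m := orderOf_dvd_iff_pow_eq_one.2 h1
  rcases (Nat.dvd_prime hm).1 h3 with h4 | h4
  · have h5 : LMV_perm S T hS = 1 := orderOf_eq_one_iff.1 h4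
    intro W hW
    rw [← LMV_perm_apply S T hS ⟨W, hW⟩, h5]
    rfl
  · exfalso
    have h5 := LMV_order S T hS
    rw [h4, hm.dvd_factorial] at h5
    omega

theorem LNM (hLMV : LMV_stmt) (hLOP : LOP_stmt) : LNM_stmt := by
  classical
  intro Ω V _ _ _ _ _ N m e U hm hdim G T Φ hT hΦ hirr hTm happ S hB hcard hU hS
  have hTfix := LNM_T m hm U T hTm S hB (lt_of_le_of_lt hcard hdim) hU (hS T hT)
  have hst : ∀ g : V ≃ₗ[Ω] V, ∀ W : Submodule Ω V, im g W = W → ∀ w ∈ W, g w ∈ W := by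
    intro g W h w hw
    have h1 : g w ∈ im g W := Submodule.mem_map_of_mem hw
    rwa [h] at h1
  by_cases hΦfix : ∀ W ∈ S, im Φ W = W
  · have hall : ∀ W ∈ S, W = U := by
      intro W hW
      rcases hirr W (hU W hW) (hst T W (hTfix W hW)) (hst Φ W (hΦfix W hW)) with h | h
      · exact absurd h (hB.ne W hW)
      · exact h
    intro g hg W hW
    rw [hall _ (hS g hg W hW), hall W hW]
  · exfalso
    push_neg at hΦfix
    obtain ⟨W0, hW0, hne⟩ := hΦfix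
    obtain ⟨ε, hε, hopen⟩ := hLOP Ω V N e S hB
    obtain ⟨F, hF, u, hu, r, s, hs0, hs, hFr, hue, hind⟩ := happ ε (S.card).factorial hε (Nat.factorial_pos _)
    have h1 : im u W0 = W0 := hopen u (hS u hu) hue W0 hW0
    have h2 : im (F ^ r) W0 ≠ W0 := by
      rw [hFr, LMV_im_mul, h1]
      exact hne
    have h3 : ∃ W1 ∈ S, im F W1 ≠ W1 := by
      by_contra hcon
      push_neg at hcon
      exact h2 (LNM_pow_fix F W0 (hcon W0 hW0) r)
    obtain ⟨W1, hW1, hne1⟩ := h3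
    obtain ⟨c, x, y, hx, hy, hxy, hcx, hcy⟩ := hLMV Ω V S hB F (hS F hF) W1 hW1 hne1 s hs
    exact hind c x y (hU W1 hW1 hx) (hU _ (hS F hF W1 hW1) hy) hcx hcy hxy

end

end Pool.Agent.AQ
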