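import Pool.Agent.helper85.AQ.SpecL

/-! Project AQ, row LOP: openness. -/

set_option autoImplicit false

namespace Pool.Agent.AQ

open Pool.Agent.GJ
open scoped TensorProduct

noncomputable section

theorem LOP_min {α : Type} (T : Finset α) (P : α → ℝ → Prop)
    (hmono : ∀ a ε ε', 0 < ε' → ε' ≤ ε → P a ε → P a ε') (h : ∀ a ∈ T, ∃ ε : ℝ, 0 < ε ∧ P a ε) :
    ∃ ε : ℝ, 0 < ε ∧ ∀ a ∈ T, P a ε := by
  classical
  induction T using Finset.induction_on with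
  | empty => exact ⟨1, one_pos, fun a ha => absurd ha (Finset.notMem_empty a)⟩
  | insert b T hb ih =>
    obtain ⟨ε1, h1, h2⟩ := ih fun a ha => h a (Finset.mem_insert_of_mem ha)
    obtain ⟨ε2, h3, h4⟩ := h b (Finset.mem_insert_self b T)
    refine ⟨min ε1 ε2, lt_min h1 h3, fun a ha => ?_⟩
    rcases Finset.mem_insert.1 ha with rfl | ha
    · exact hmono _ _ _ (lt_min h1 h3) (min_le_right _ _) h4
    · exact hmono _ _ _ (lt_min h1 h3) (min_le_left _ _) (h2 a ha)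

theorem LOP_bound {Ω V : Type} [NormedField Ω] [AddCommGroup V] [Module Ω V] (n : ℕ) (v : Module.Basis (Fin n) Ω V)
    (f : V →ₗ[Ω] Ω) (u : V) (g : V ≃ₗ[Ω] V) (ε : ℝ) (hε : ∀ i j, ‖v.repr (g (v j) - v j) i‖ ≤ ε) :
    ‖f (g u - u)‖ ≤ ε * ∑ j, ∑ i, ‖v.repr u j‖ * ‖f (v i)‖ := by
  have h1 : g u - u = ∑ j, v.repr u j • (g (v j) - v j) := by
    conv_lhs => rw [← v.sum_repr u]
    rw [map_sum, ← Finset.sum_sub_distrib]
    refine Finset.sum_congr rfl fun j _ => ?_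
    rw [map_smul, smul_sub]
  have h3 : ∀ j, f (g (v j) - v j) = ∑ i, v.repr (g (v j) - v j) i * f (v i) := by
    intro j
    conv_lhs => rw [← v.sum_repr (g (v j) - v j)]
    rw [map_sum]
    refine Finset.sum_congr rfl fun i _ => ?_
    rw [map_smul, smul_eq_mul]
  rw [h1, map_sum]
  refine (norm_sum_le _ _).trans ?_
  rw [Finset.mul_sum]
  refine Finset.sum_le_sum fun j _ => ?_
  rw [map_smul, smul_eq_mul, norm_mul, h3]
  calc ‖v.repr u j‖ * ‖∑ i, v.repr (g (v j) - v j) i * f (v i)‖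
      ≤ ‖v.repr u j‖ * ∑ i, ε * ‖f (v i)‖ := by
        refine mul_le_mul_of_nonneg_left ?_ (norm_nonneg _)
        refine (norm_sum_le _ _).trans (Finset.sum_le_sum fun i _ => ?_)
        rw [norm_mul]
        exact mul_le_mul_of_nonneg_right (hε i j) (norm_nonneg _)
    _ = ε * ∑ i, ‖v.repr u j‖ * ‖f (v i)‖ := by
        rw [← Finset.mul_sum, ← Finset.mul_sum]
        ring

theorem LOP_pair {Ω V : Type} [NormedField Ω] [AddCommGroup V] [Module Ω V] (n : ℕ) (v : Module.Basis (Fin n) Ω V)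
    (W W' : Submodule Ω V) (hW : W ≠ ⊥) (hd : Disjoint W W') : ∃ ε : ℝ, 0 < ε ∧ ∀ g : V ≃ₗ[Ω] V,
      (∀ i j, ‖v.repr (g (v j) - v j) i‖ ≤ ε) → im g W ≠ W' := by
  obtain ⟨u, hu, hu0⟩ := Submodule.exists_mem_ne_zero_of_ne_bot hW
  have hu' : u ∉ W' := fun h => hu0 (Submodule.disjoint_def.1 hd u hu h)
  obtain ⟨f, hf, hfW⟩ := Submodule.exists_le_ker_of_notMem hu'
  obtain ⟨C, hC⟩ : ∃ C : ℝ, C = ∑ j, ∑ i, ‖v.repr u j‖ * ‖f (v i)‖ := ⟨_, rfl⟩
  have hC0 : 0 ≤ C := by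
    rw [hC]
    exact Finset.sum_nonneg fun j _ => Finset.sum_nonneg fun i _ => mul_nonneg (norm_nonneg _) (norm_nonneg _)
  have hδ : 0 < ‖f u‖ := norm_pos_iff.2 hf
  refine ⟨‖f u‖ / (2 * (C + 1)), div_pos hδ (by linarith), fun g hg heq => ?_⟩
  have h1 := LOP_bound n v f u g _ hg
  rw [← hC] at h1
  have h2 : g u ∈ W' := by
    rw [← heq]
    exact Submodule.mem_map_of_mem hu
  have h3 : f (g u) = 0 := hfW h2
  rw [map_sub, h3, zero_sub, norm_neg] at h1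
  have h4 : ‖f u‖ / (2 * (C + 1)) * C < ‖f u‖ := by
    rw [div_mul_eq_mul_div, div_lt_iff₀ (by linarith)]
    nlinarith
  linarith

theorem LOP : LOP_stmt := by
  classical
  intro Ω V _ _ _ n v S hB
  obtain ⟨ε, h0, h1⟩ := LOP_min (S ×ˢ S) (fun p ε => p.1 ≠ p.2 → ∀ g : V ≃ₗ[Ω] V,
      (∀ i j, ‖v.repr (g (v j) - v j) i‖ ≤ ε) → im g p.1 ≠ p.2)
    (fun a ε ε' _ hle h hne g hg => h hne g fun i j => (hg i j).trans hle)
    (by
      intro a ha
      rw [Finset.mem_product] at ha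
      by_cases hne : a.1 = a.2
      · exact ⟨1, one_pos, fun h => absurd hne h⟩
      · obtain ⟨ε, h1, h2⟩ := LOP_pair n v a.1 a.2 (hB.ne _ ha.1) (hB.dis _ ha.1 _ ha.2 hne)
        exact ⟨ε, h1, fun _ => h2⟩)
  refine ⟨ε, h0, fun g hg hε W hW => ?_⟩
  by_contra hne
  exact h1 (W, im g W) (Finset.mem_product.2 ⟨hW, hg W hW⟩) (fun h => hne h.symm) g hε rfl

end

end Pool.Agent.AQ
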